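import Pool.Agent.BOX.StmtsG

set_option autoImplicit false

/-!
# BOX, row SCD: termwise derivatives of the sine series
-/

namespace Pool.Agent.BOX.H77

open Pool.Agent.BOX
open Set Filter Topology MeasureTheory

/-- the product over the directions different from `i` -/
noncomputable def scdP {N : ℕ} (l : Fin N → ℝ) (i : Fin N) (k : Fin N → ℤ) (x : Fin N → ℝ) : ℝ :=
  ∏ j ∈ Finset.univ.erase i, Real.sin (Real.pi * k j / l j * x j)

theorem scd_P_shift {N : ℕ} (l : Fin N → ℝ) (i : Fin N) (k : Fin N → ℤ) (x : Fin N → ℝ) (s : ℝ) :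
    scdP l i k (x + s • Pi.single i (1 : ℝ)) = scdP l i k x := by
  unfold scdP
  refine Finset.prod_congr rfl fun j hj => ?_
  have hji : j ≠ i := (Finset.mem_erase.1 hj).1
  have h : (x + s • (Pi.single i (1 : ℝ) : Fin N → ℝ)) j = x j := by
    simp [hji]
  rw [h]

theorem scd_P_le {N : ℕ} (l : Fin N → ℝ) (i : Fin N) (k : Fin N → ℤ) (x : Fin N → ℝ) :
    |scdP l i k x| ≤ 1 := by
  unfold scdP
  rw [Finset.abs_prod]
  exact Finset.prod_le_one (fun _ _ => abs_nonneg _) (fun _ _ => Real.abs_sin_le_one _)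

theorem scd_Sn {N : ℕ} (l : Fin N → ℝ) (c : (Fin N → ℤ) → ℝ) (i : Fin N) (k : Fin N → ℤ)
    (x : Fin N → ℝ) :
    Sn l c k x = c k * (Real.sin (Real.pi * k i / l i * x i) * scdP l i k x) := by
  unfold Sn scdP
  rw [← Finset.mul_prod_erase Finset.univ (fun j => Real.sin (Real.pi * k j / l j * x j))
    (Finset.mem_univ i)]

theorem scd_Sn_le {N : ℕ} (l : Fin N → ℝ) (c : (Fin N → ℤ) → ℝ) (hc : ∀ k, |c k| ≤ 1)
    (k : Fin N → ℤ) (x : Fin N → ℝ) : |Sn l c k x| ≤ 1 := by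
  unfold Sn
  rw [abs_mul, Finset.abs_prod]
  exact mul_le_one₀ (hc k) (Finset.prod_nonneg fun _ _ => abs_nonneg _)
    (Finset.prod_le_one (fun _ _ => abs_nonneg _) (fun _ _ => Real.abs_sin_le_one _))

theorem scd_Sd_le {N : ℕ} (l : Fin N → ℝ) (c : (Fin N → ℤ) → ℝ) (hc : ∀ k, |c k| ≤ 1)
    (i : Fin N) (k : Fin N → ℤ) (x : Fin N → ℝ) :
    |Sd l c i k x| ≤ |Real.pi * k i / l i| := by
  have h1 := scd_P_le l i k x
  have h2 := Real.abs_cos_le_one (Real.pi * k i / l i * x i)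
  have e : Sd l c i k x = c k * (Real.pi * k i / l i * Real.cos (Real.pi * k i / l i * x i) *
    scdP l i k x) := rfl
  rw [e, abs_mul, abs_mul, abs_mul]
  calc |c k| * (|Real.pi * k i / l i| * |Real.cos (Real.pi * k i / l i * x i)| * |scdP l i k x|)
      ≤ 1 * (|Real.pi * k i / l i| * 1 * 1) := by
        refine mul_le_mul (hc k) ?_ (by positivity) zero_le_one
        refine mul_le_mul ?_ h1 (abs_nonneg _) (by positivity)
        exact mul_le_mul_of_nonneg_left h2 (abs_nonneg _)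
    _ = |Real.pi * k i / l i| := by ring

theorem scd_shift {N : ℕ} (i : Fin N) (x : Fin N → ℝ) (s : ℝ) :
    (x + s • (Pi.single i (1 : ℝ) : Fin N → ℝ)) i = x i + s := by
  simp

theorem scd_d1 {N : ℕ} (l : Fin N → ℝ) (c : (Fin N → ℤ) → ℝ) (i : Fin N) (k : Fin N → ℤ)
    (x e : Fin N → ℝ) (he : e = Pi.single i (1 : ℝ)) (s : ℝ) :
    HasDerivAt (fun s : ℝ => Sn l c k (x + s • e)) (Sd l c i k (x + s • e)) s := by
  subst he
  have hf : (fun s : ℝ => Sn l c k (x + s • Pi.single i (1 : ℝ))) =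
      fun s => c k * (Real.sin (Real.pi * k i / l i * (x i + s)) * scdP l i k x) := by
    funext s
    rw [scd_Sn l c i, scd_P_shift, scd_shift]
  have e : Sd l c i k (x + s • Pi.single i (1 : ℝ)) =
      c k * (Real.pi * k i / l i * Real.cos (Real.pi * k i / l i *
        (x + s • (Pi.single i (1 : ℝ) : Fin N → ℝ)) i) * scdP l i k (x + s • Pi.single i (1 : ℝ))) := rfl
  rw [hf, e, scd_P_shift, scd_shift]
  have h0 : HasDerivAt (fun s : ℝ => Real.pi * k i / l i * (x i + s)) (Real.pi * k i / l i) s := by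
    have h1 := ((hasDerivAt_id s).const_add (x i)).const_mul (Real.pi * k i / l i)
    rw [mul_one] at h1
    exact h1
  have h2 := ((h0.sin).mul_const (scdP l i k x)).const_mul (c k)
  have h3 : c k * (Real.pi * k i / l i * Real.cos (Real.pi * k i / l i * (x i + s)) *
      scdP l i k x) = c k * (Real.cos (Real.pi * k i / l i * (x i + s)) *
      (Real.pi * k i / l i) * scdP l i k x) := by ring
  rw [h3]
  exact h2

theorem scd_d2 {N : ℕ} (l : Fin N → ℝ) (c : (Fin N → ℤ) → ℝ) (i : Fin N) (k : Fin N → ℤ)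
    (x e : Fin N → ℝ) (he : e = Pi.single i (1 : ℝ)) (s : ℝ) :
    HasDerivAt (fun s : ℝ => Sd l c i k (x + s • e))
      (-((Real.pi * k i / l i) ^ 2 * Sn l c k (x + s • e))) s := by
  subst he
  have hf : (fun s : ℝ => Sd l c i k (x + s • Pi.single i (1 : ℝ))) =
      fun s => c k * (Real.pi * k i / l i * Real.cos (Real.pi * k i / l i * (x i + s)) *
        scdP l i k x) := by
    funext s
    have e : Sd l c i k (x + s • Pi.single i (1 : ℝ)) =
      c k * (Real.pi * k i / l i * Real.cos (Real.pi * k i / l i *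
        (x + s • (Pi.single i (1 : ℝ) : Fin N → ℝ)) i) * scdP l i k (x + s • Pi.single i (1 : ℝ))) := rfl
    rw [e, scd_P_shift, scd_shift]
  rw [hf, scd_Sn l c i, scd_P_shift, scd_shift]
  have h0 : HasDerivAt (fun s : ℝ => Real.pi * k i / l i * (x i + s)) (Real.pi * k i / l i) s := by
    have h1 := ((hasDerivAt_id s).const_add (x i)).const_mul (Real.pi * k i / l i)
    rw [mul_one] at h1
    exact h1
  have h2 := (((h0.cos).const_mul (Real.pi * k i / l i)).mul_const (scdP l i k x)).const_mul (c k)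
  have h3 : -((Real.pi * k i / l i) ^ 2 * (c k * (Real.sin (Real.pi * k i / l i * (x i + s)) *
      scdP l i k x))) = c k * (Real.pi * k i / l i * (-Real.sin (Real.pi * k i / l i * (x i + s)) *
      (Real.pi * k i / l i)) * scdP l i k x) := by ring
  rw [h3]
  exact h2

theorem scd_w2 {N : ℕ} (k : Fin N → ℤ) (i : Fin N) :
    1 ≤ w2 k ∧ |(k i : ℝ)| ≤ w2 k ∧ (k i : ℝ) ^ 2 ≤ w2 k := by
  unfold w2
  have h1 : |(k i : ℝ)| ≤ ∑ j, |(k j : ℝ)| :=
    Finset.single_le_sum (f := fun j => |(k j : ℝ)|) (fun _ _ => abs_nonneg _) (Finset.mem_univ i)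
  have h0 : 0 ≤ |(k i : ℝ)| := abs_nonneg _
  have h2 : |(k i : ℝ)| ^ 2 = (k i : ℝ) ^ 2 := sq_abs _
  refine ⟨by nlinarith, by nlinarith, by nlinarith⟩

theorem scd_w2one {N : ℕ} (k : Fin N → ℤ) : 1 ≤ w2 k := by
  unfold w2
  have h0 : 0 ≤ ∑ j, |(k j : ℝ)| := Finset.sum_nonneg fun _ _ => abs_nonneg _
  nlinarith

theorem scd_iter (f g : ℝ → ℝ) (t h : ℝ) (hf : ∀ᶠ s in 𝓝 t, HasDerivAt f (g s) s)
    (hg : HasDerivAt g h t) : iteratedDeriv 2 f t = h := by
  rw [iteratedDeriv_succ, iteratedDeriv_one]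
  have h1 : deriv f =ᶠ[𝓝 t] g := by
    filter_upwards [hf] with s hs
    exact hs.deriv
  rw [h1.deriv_eq]
  exact hg.deriv

theorem scd_ts {ι : Type} (u : ι → ℝ) (g g' : ι → ℝ → ℝ) (hu : Summable u)
    (hg : ∀ n y, HasDerivAt (g n) (g' n y) y) (hb : ∀ n y, ‖g' n y‖ ≤ u n) (y₀ : ℝ)
    (h0 : Summable fun n => g n y₀) (y : ℝ) :
    HasDerivAt (fun z => ∑' n, g n z) (∑' n, g' n y) y := hasDerivAt_tsum hu hg hb h0 y

theorem scd_x {N : ℕ} (l : Fin N → ℝ) (c : (Fin N → ℤ) → ℝ) (i : Fin N) (hl : 0 < l i)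
    (hc : ∀ k, |c k| ≤ 1) (b D : (Fin N → ℤ) → ℝ) (hD : Summable fun k => D k * w2 k)
    (hD0 : ∀ k, 0 ≤ D k) (hb : ∀ k, |b k| ≤ D k)
    (x e : Fin N → ℝ) (he : e = Pi.single i (1 : ℝ)) :
    (∀ s : ℝ, HasDerivAt (fun z : ℝ => ∑' k, b k * Sn l c k (x + z • e))
      (∑' k, b k * Sd l c i k (x + s • e)) s) ∧
    HasDerivAt (fun z : ℝ => ∑' k, b k * Sd l c i k (x + z • e))
      (∑' k, b k * (-((Real.pi * k i / l i) ^ 2 * Sn l c k (x + (0 : ℝ) • e)))) 0 := by
  have hpi := Real.pi_pos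
  have hB0 : ∀ k (y : Fin N → ℝ), ‖b k * Sn l c k y‖ ≤ D k * w2 k := by
    intro k y
    rw [Real.norm_eq_abs, abs_mul]
    exact mul_le_mul (hb k) ((scd_Sn_le l c hc k y).trans (scd_w2one k)) (abs_nonneg _) (hD0 k)
  have hB1 : ∀ k (y : Fin N → ℝ), ‖b k * Sd l c i k y‖ ≤ Real.pi / l i * (D k * w2 k) := by
    intro k y
    obtain ⟨-, hw1, -⟩ := scd_w2 k i
    rw [Real.norm_eq_abs, abs_mul]
    have h1 := scd_Sd_le l c hc i k y
    have h2 : |Real.pi * k i / l i| = Real.pi / l i * |(k i : ℝ)| := by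
      rw [abs_div, abs_mul, abs_of_pos hpi, abs_of_pos hl]
      ring
    rw [h2] at h1
    calc |b k| * |Sd l c i k y| ≤ D k * (Real.pi / l i * |(k i : ℝ)|) :=
          mul_le_mul (hb k) h1 (abs_nonneg _) (hD0 k)
      _ = Real.pi / l i * (D k * |(k i : ℝ)|) := by ring
      _ ≤ Real.pi / l i * (D k * w2 k) :=
          mul_le_mul_of_nonneg_left (mul_le_mul_of_nonneg_left hw1 (hD0 k)) (by positivity)
  have hB2 : ∀ k (y : Fin N → ℝ), ‖b k * (-((Real.pi * k i / l i) ^ 2 * Sn l c k y))‖ ≤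
      (Real.pi / l i) ^ 2 * (D k * w2 k) := by
    intro k y
    obtain ⟨-, -, hw3⟩ := scd_w2 k i
    rw [Real.norm_eq_abs, abs_mul, abs_neg, abs_mul,
      abs_of_nonneg (sq_nonneg (Real.pi * k i / l i))]
    have h1 := scd_Sn_le l c hc k y
    have h2 : (Real.pi * k i / l i) ^ 2 = (Real.pi / l i) ^ 2 * (k i : ℝ) ^ 2 := by ring
    calc |b k| * ((Real.pi * k i / l i) ^ 2 * |Sn l c k y|)
        ≤ D k * ((Real.pi * k i / l i) ^ 2 * 1) :=
          mul_le_mul (hb k) (mul_le_mul_of_nonneg_left h1 (sq_nonneg _))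
            (mul_nonneg (sq_nonneg _) (abs_nonneg _)) (hD0 k)
      _ = (Real.pi / l i) ^ 2 * (D k * (k i : ℝ) ^ 2) := by
          rw [h2]
          ring
      _ ≤ (Real.pi / l i) ^ 2 * (D k * w2 k) :=
          mul_le_mul_of_nonneg_left (mul_le_mul_of_nonneg_left hw3 (hD0 k)) (by positivity)
  have hD1 : Summable fun k : Fin N → ℤ => Real.pi / l i * (D k * w2 k) :=
    hD.mul_left (Real.pi / l i)
  have hD2 : Summable fun k : Fin N → ℤ => (Real.pi / l i) ^ 2 * (D k * w2 k) :=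
    hD.mul_left ((Real.pi / l i) ^ 2)
  have hS0 : Summable fun k : Fin N → ℤ => b k * Sn l c k (x + (0 : ℝ) • e) :=
    Summable.of_norm_bounded hD fun k => hB0 k _
  have hS1 : Summable fun k : Fin N → ℤ => b k * Sd l c i k (x + (0 : ℝ) • e) :=
    Summable.of_norm_bounded hD1 fun k => hB1 k _
  refine ⟨fun s => ?_, ?_⟩
  · exact hasDerivAt_tsum hD1 (fun k y => (scd_d1 l c i k x e he y).const_mul (b k))
      (fun k y => hB1 k _) hS0 s
  · exact hasDerivAt_tsum hD2 (fun k y => (scd_d2 l c i k x e he y).const_mul (b k))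
      (fun k y => hB2 k _) hS1 0

/-- **SCD** -/
theorem scd : ScdStmt := by
  intro N l c T a a' a'' D hl hc hD hb hd t ht x
  have hD0 : ∀ k, 0 ≤ D k := fun k => (abs_nonneg _).trans (hb k t ht).1
  have hDs : Summable D := Summable.of_nonneg_of_le hD0
    (fun k => le_mul_of_one_le_right (hD0 k) (scd_w2one k)) hD
  have hIo : IsOpen (Ioi T) := isOpen_Ioi
  have hIc : IsPreconnected (Ioi T) := isPreconnected_Ioi
  have hbd : ∀ (u v C : ℝ), |u| ≤ C → |v| ≤ 1 → ‖u * v‖ ≤ C := by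
    intro u v C hu hv
    rw [Real.norm_eq_abs, abs_mul]
    calc |u| * |v| ≤ C * 1 := mul_le_mul hu hv (abs_nonneg _) ((abs_nonneg _).trans hu)
      _ = C := mul_one C
  have hS1 : ∀ s > T, ∀ y, Summable fun k => a k s * Sn l c k y := fun s hs y =>
    Summable.of_norm_bounded hDs fun k => hbd _ _ _ (hb k s hs).1 (scd_Sn_le l c hc k y)
  have hS2 : ∀ s > T, ∀ y, Summable fun k => a' k s * Sn l c k y := fun s hs y =>
    Summable.of_norm_bounded hDs fun k => hbd _ _ _ (hb k s hs).2.1 (scd_Sn_le l c hc k y)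
  have ht1 : ∀ s > T, HasDerivAt (fun z => ∑' k, a k z * Sn l c k x)
      (∑' k, a' k s * Sn l c k x) s := fun s hs =>
    hasDerivAt_tsum_of_isPreconnected hDs hIo hIc
      (fun k y hy => (hd k y hy).1.mul_const (Sn l c k x))
      (fun k y hy => hbd _ _ _ (hb k y hy).2.1 (scd_Sn_le l c hc k x)) ht (hS1 t ht x) hs
  have ht2 : HasDerivAt (fun z => ∑' k, a' k z * Sn l c k x)
      (∑' k, a'' k t * Sn l c k x) t :=
    hasDerivAt_tsum_of_isPreconnected hD hIo hIc
      (fun k y hy => (hd k y hy).2.mul_const (Sn l c k x))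
      (fun k y hy => hbd _ _ _ (hb k y hy).2.2 (scd_Sn_le l c hc k x)) ht (hS2 t ht x) ht
  refine ⟨(ht1 t ht).deriv, ?_, fun i => ?_⟩
  · exact scd_iter _ _ t _ (by
      filter_upwards [hIo.mem_nhds ht] with s hs
      exact ht1 s hs) ht2
  · obtain ⟨hx1, hx2⟩ := scd_x l c i (hl i) hc (fun k => a k t) D hD hD0
      (fun k => (hb k t ht).1) x (Pi.single i (1 : ℝ)) rfl
    refine ⟨?_, ?_⟩
    · have h := (hx1 0).deriv
      rw [zero_smul, add_zero] at h
      exact h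
    · have h := scd_iter _ _ 0 _ (Filter.Eventually.of_forall hx1) hx2
      rw [zero_smul, add_zero] at h
      have e : (∑' k, a k t * (-((Real.pi * k i / l i) ^ 2 * Sn l c k x))) =
          - ∑' k, (Real.pi * k i / l i) ^ 2 * a k t * Sn l c k x := by
        rw [← tsum_neg]
        refine tsum_congr fun k => ?_
        ring
      rw [← e, ← h]
      rfl

end Pool.Agent.BOX.H77
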