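import Pool.Agent.BOX.StmtsG

set_option autoImplicit false

/-!
# BOX, row T3A: the trilinear convolution is bounded
-/

namespace Pool.Agent.BOX.H77

open Pool.Agent.BOX
open Set Filter Topology MeasureTheory

/-- the change of variables -/
def t3aE (Γ : Type) [AddCommGroup Γ] : Γ × (Γ × Γ) ≃ (Γ × Γ) × Γ where
  toFun x := (x.2, x.1 - x.2.1 - x.2.2)
  invFun y := (y.2 + y.1.1 + y.1.2, y.1)
  left_inv x := by
    refine Prod.ext ?_ rfl
    change x.1 - x.2.1 - x.2.2 + x.2.1 + x.2.2 = x.1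
    abel
  right_inv y := by
    refine Prod.ext rfl ?_
    change y.2 + y.1.1 + y.1.2 - y.1.1 - y.1.2 = y.2
    abel

/-- three summable nonnegative families -/
theorem t3a_sum (Γ : Type) [AddCommGroup Γ] (a b c : Γ → ℝ) (ha : ∀ g, 0 ≤ a g)
    (hb : ∀ g, 0 ≤ b g) (hc : ∀ g, 0 ≤ c g) (sa : Summable a) (sb : Summable b)
    (sc : Summable c) :
    (Summable fun x : Γ × (Γ × Γ) => a x.2.1 * b x.2.2 * c (x.1 - x.2.1 - x.2.2)) ∧
    ∑' x : Γ × (Γ × Γ), a x.2.1 * b x.2.2 * c (x.1 - x.2.1 - x.2.2) =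
      (∑' g, a g) * (∑' g, b g) * ∑' g, c g := by
  have hab : Summable fun x : Γ × Γ => a x.1 * b x.2 := sa.mul_of_nonneg sb ha hb
  have hab0 : ∀ x : Γ × Γ, 0 ≤ a x.1 * b x.2 := fun x => mul_nonneg (ha _) (hb _)
  have habc : Summable fun y : (Γ × Γ) × Γ => a y.1.1 * b y.1.2 * c y.2 :=
    hab.mul_of_nonneg sc hab0 hc
  have na : Summable fun x => ‖a x‖ := by simpa only [Real.norm_eq_abs] using sa.abs
  have nb : Summable fun x => ‖b x‖ := by simpa only [Real.norm_eq_abs] using sb.abs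
  have nc : Summable fun x => ‖c x‖ := by simpa only [Real.norm_eq_abs] using sc.abs
  have nab : Summable fun x : Γ × Γ => ‖a x.1 * b x.2‖ := by
    simpa only [Real.norm_eq_abs] using hab.abs
  refine ⟨(t3aE Γ).summable_iff.2 habc, ?_⟩
  rw [tsum_mul_tsum_of_summable_norm na nb, tsum_mul_tsum_of_summable_norm nab nc]
  exact (t3aE Γ).tsum_eq (fun y : (Γ × Γ) × Γ => a y.1.1 * b y.1.2 * c y.2)

/-- **T3A** -/
theorem t3a : T3aStmt := by
  intro Γ B _ _ _ w F G H hw hF hG hH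
  obtain ⟨hw1, hw2⟩ := hw
  have hw0 : ∀ g, 0 ≤ w g := fun g => zero_le_one.trans (hw1 g)
  obtain ⟨hS, hsum⟩ := t3a_sum Γ (fun g => ‖F g‖ * w g) (fun g => ‖G g‖ * w g)
    (fun g => ‖H g‖ * w g) (fun g => mul_nonneg (norm_nonneg _) (hw0 g))
    (fun g => mul_nonneg (norm_nonneg _) (hw0 g)) (fun g => mul_nonneg (norm_nonneg _) (hw0 g))
    hF hG hH
  have hg : ∀ g, Summable fun h : Γ × Γ => ((‖F h.1‖ * w h.1) * (‖G h.2‖ * w h.2)) *
      (‖H (g - h.1 - h.2)‖ * w (g - h.1 - h.2)) := fun g => hS.prod_factor g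
  have hle : ∀ g (h : Γ × Γ), ‖F h.1‖ * ‖G h.2‖ * ‖H (g - h.1 - h.2)‖ * w g ≤
      ((‖F h.1‖ * w h.1) * (‖G h.2‖ * w h.2)) * (‖H (g - h.1 - h.2)‖ * w (g - h.1 - h.2)) := by
    intro g h
    have h1 : w g ≤ w h.1 * w h.2 * w (g - h.1 - h.2) := by
      have h2 := hw2 (h.1 + h.2) (g - h.1 - h.2)
      have h3 := mul_le_mul_of_nonneg_right (hw2 h.1 h.2) (hw0 (g - h.1 - h.2))
      have h4 : h.1 + h.2 + (g - h.1 - h.2) = g := by abel
      rw [h4] at h2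
      exact h2.trans h3
    calc ‖F h.1‖ * ‖G h.2‖ * ‖H (g - h.1 - h.2)‖ * w g
        ≤ ‖F h.1‖ * ‖G h.2‖ * ‖H (g - h.1 - h.2)‖ * (w h.1 * w h.2 * w (g - h.1 - h.2)) :=
          mul_le_mul_of_nonneg_left h1 (by positivity)
      _ = _ := by ring
  have hone : ∀ g, Summable fun h : Γ × Γ => ‖F h.1‖ * ‖G h.2‖ * ‖H (g - h.1 - h.2)‖ := by
    intro g
    refine Summable.of_nonneg_of_le (fun h => by positivity) (fun h => ?_) (hg g)
    refine le_trans ?_ (hle g h)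
    exact le_mul_of_one_le_right (by positivity) (hw1 g)
  have hbd : ∀ g, ‖T3 F G H g‖ * w g ≤ ∑' h : Γ × Γ, ((‖F h.1‖ * w h.1) * (‖G h.2‖ * w h.2)) *
      (‖H (g - h.1 - h.2)‖ * w (g - h.1 - h.2)) := by
    intro g
    have h1 : ∀ h : Γ × Γ, ‖F h.1 * G h.2 * H (g - h.1 - h.2)‖ ≤
        ‖F h.1‖ * ‖G h.2‖ * ‖H (g - h.1 - h.2)‖ := fun h =>
      (norm_mul_le _ _).trans (mul_le_mul_of_nonneg_right (norm_mul_le _ _) (norm_nonneg _))
    have h2 : Summable fun h : Γ × Γ => ‖F h.1 * G h.2 * H (g - h.1 - h.2)‖ :=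
      Summable.of_nonneg_of_le (fun h => norm_nonneg _) h1 (hone g)
    have h3 : ‖T3 F G H g‖ ≤ ∑' h : Γ × Γ, ‖F h.1‖ * ‖G h.2‖ * ‖H (g - h.1 - h.2)‖ :=
      (norm_tsum_le_tsum_norm h2).trans (h2.tsum_le_tsum h1 (hone g))
    calc ‖T3 F G H g‖ * w g
        ≤ (∑' h : Γ × Γ, ‖F h.1‖ * ‖G h.2‖ * ‖H (g - h.1 - h.2)‖) * w g :=
          mul_le_mul_of_nonneg_right h3 (hw0 g)
      _ = ∑' h : Γ × Γ, ‖F h.1‖ * ‖G h.2‖ * ‖H (g - h.1 - h.2)‖ * w g := by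
          rw [tsum_mul_right]
      _ ≤ _ := ((hone g).mul_right _).tsum_le_tsum (hle g) (hg g)
  have hK : Summable fun g => ∑' h : Γ × Γ, ((‖F h.1‖ * w h.1) * (‖G h.2‖ * w h.2)) *
      (‖H (g - h.1 - h.2)‖ * w (g - h.1 - h.2)) := hS.prod
  have hSm : Sm w (T3 F G H) :=
    Summable.of_nonneg_of_le (fun g => mul_nonneg (norm_nonneg _) (hw0 g)) hbd hK
  refine ⟨hone, hSm, ?_⟩
  have hfin : nm w (T3 F G H) ≤ ∑' g, ∑' h : Γ × Γ, ((‖F h.1‖ * w h.1) * (‖G h.2‖ * w h.2)) *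
      (‖H (g - h.1 - h.2)‖ * w (g - h.1 - h.2)) := hSm.tsum_le_tsum hbd hK
  refine hfin.trans (le_of_eq ?_)
  exact (hS.tsum_prod).symm.trans hsum

end Pool.Agent.BOX.H77
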